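import Pool.Agent.H85.TwoN

namespace Pool.Agent.Results.MP_efd99a_gt.Counter

open Pool.Agent.H85.SemiRiemDefs Pool.Agent.H85.TwoDefs
open scoped Manifold ContDiff

/-- the nine-dimensional model space -/
abbrev R9 : Type := Fin 3 → Fin 3 → ℝ

theorem result : ∃ (M : Type) (_ : TopologicalSpace M) (_ : T2Space M) (_ : CompactSpace M)
    (_ : ConnectedSpace M) (_ : ChartedSpace R9 M) (_ : IsManifold 𝓘(ℝ, R9) ∞ M)
    (g : Bilin R9 M) (s : M → M → M), IsSymmetric g s ∧ twoNumber s ≤ 8 ∧ 9 ≤ totalBetti M ∧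
      twoNumber s ≠ totalBetti M :=
  ⟨H85.TwoM.M, _, inferInstance, inferInstance, inferInstance, _, inferInstance, _, _,
    H85.TwoM.symmetric, H85.TwoM.two_le, H85.TwoM.nine_le, fun h => by
      have := H85.TwoM.nine_le.trans (h ▸ H85.TwoM.two_le)
      norm_num at this⟩

end Pool.Agent.Results.MP_efd99a_gt.Counter
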